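import Mathlib

set_option autoImplicit false

namespace Pool.Agent.Results.MP_4b6b3a_lc.NoMinimalCover

open Nat.Partrec (Code)

/-- `X` is `n`-c.e., that is, belongs to the level `n` of the Ershov hierarchy: its characteristic
function is the limit of a computable function `g` with `g x 0 = 0` and at most `n` changes. -/
def NCE (n : ℕ) (X : Set ℕ) : Prop :=
  ∃ g : ℕ → ℕ → Bool, Computable₂ g ∧ ∀ x, g x 0 = false ∧
    (∃ s₀, ∀ s ≥ s₀, (g x s = true ↔ x ∈ X)) ∧ {s | g x (s + 1) ≠ g x s}.encard ≤ n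

/-- `α` is a numbering of the family `A`, computable at level `n` of the Ershov hierarchy. -/
structure CompNum (n : ℕ) (A : Set (Set ℕ)) (α : ℕ → Set ℕ) : Prop where
  range_eq : Set.range α = A
  nce : NCE n {z | z.unpair.2 ∈ α z.unpair.1}

/-- `α ≤ β` -/
def Red (α β : ℕ → Set ℕ) : Prop := ∃ f : ℕ → ℕ, Computable f ∧ ∀ x, α x = β (f x)

/-- `α < β` -/
def SRed (α β : ℕ → Set ℕ) : Prop := Red α β ∧ ¬ Red β α

/-- the class of `α` is not the greatest element of the Rogers semilattice of `A` -/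
def NonGreatest (n : ℕ) (A : Set (Set ℕ)) (α : ℕ → Set ℕ) : Prop :=
  ∃ β, CompNum n A β ∧ ¬ Red β α

/-- the class of `β` is a minimal cover of the class of `α` in the Rogers semilattice of `A` -/
def MinimalCover (n : ℕ) (A : Set (Set ℕ)) (α β : ℕ → Set ℕ) : Prop :=
  CompNum n A β ∧ SRed α β ∧ ¬ ∃ γ, CompNum n A γ ∧ SRed α γ ∧ SRed γ β

/-! ### Helper lemmas on primitive recursive predicates -/

section Aux
variable {α : Type*} [Primcodable α]

theorem ex_lt {R : ℕ → α → Prop} {f : α → ℕ} (hR : PrimrecRel R) (hf : Primrec f) :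
    PrimrecPred fun a => ∃ x < f a, R x a :=
  (hR.exists_mem_list.comp (Primrec.list_range.comp hf) Primrec.id).of_eq (by simp)

theorem all_lt {R : ℕ → α → Prop} {f : α → ℕ} (hR : PrimrecRel R) (hf : Primrec f) :
    PrimrecPred fun a => ∀ x < f a, R x a :=
  (hR.forall_mem_list.comp (Primrec.list_range.comp hf) Primrec.id).of_eq (by simp)

theorem imp_pred {p q : α → Prop} (hp : PrimrecPred p) (hq : PrimrecPred q) :
    PrimrecPred fun a => p a → q a :=
  (hp.not.or hq).of_eq fun a => by tauto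

theorem ex_pre {R : List ℕ → α → Prop} {f : α → List ℕ} (hR : PrimrecRel R) (hf : Primrec f) :
    PrimrecPred fun a => ∃ σ < (f a).length + 1, R ((f a).take σ) a := by
  refine ex_lt (R := fun σ a => R ((f a).take σ) a) (f := fun a => (f a).length + 1) ?_
    (Primrec.succ.comp (Primrec.list_length.comp hf))
  exact hR.comp₂ (Primrec.list_take.comp₂ Primrec₂.left (hf.comp₂ Primrec₂.right)) Primrec₂.right

end Aux

/-! ### Opponents -/

/-- stage `s` of the `e`-th c.e. set -/
def W (s e y : ℕ) : Bool := (Code.evaln s (Denumerable.ofNat Code e) y).isSome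

/-- stage `s` of token `w`: the section `w.unpair.2` of the difference of the two c.e. sets coded
by `w.unpair.1` -/
def Dm (s w x : ℕ) : Bool :=
  W s w.unpair.1.unpair.1 (Nat.pair w.unpair.2 x) && !W s w.unpair.1.unpair.2 (Nat.pair w.unpair.2 x)

/-! ### Names -/

def nm (c p w : ℕ) : ℕ := Nat.pair (Nat.pair c p) w
def cN (z : ℕ) : ℕ := z.unpair.1.unpair.1
def pN (z : ℕ) : ℕ := z.unpair.1.unpair.2
def wN (z : ℕ) : ℕ := z.unpair.2
def eN (z : ℕ) : ℕ := z.unpair.2.unpair.1
def tN (z : ℕ) : ℕ := z.unpair.2.unpair.2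

/-! ### Requirements and blocks -/

def eQ (q : ℕ) : ℕ := q.unpair.1
def iQ (q : ℕ) : ℕ := q.unpair.2.unpair.1
def jQ (q : ℕ) : ℕ := q.unpair.2.unpair.2
def rB (b : ℕ) : ℕ := b.unpair.1
def GB (b : ℕ) : List ℕ := Denumerable.ofNat (List ℕ) b.unpair.2.unpair.1

def Clr (q b : ℕ) : Prop := ∀ q' < q, q' ∈ GB b → eQ q' ≠ eQ q
def Asg (q b : ℕ) : Prop := q < rB b ∧ q ∈ GB b ∧ Clr q b
def Mis (q b : ℕ) : Prop := q < rB b ∧ q ∉ GB b ∧ Clr q b
def OnS (e j b : ℕ) : Prop := ∃ q < rB b, Asg q b ∧ eQ q = e ∧ jQ q = j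

def brok (L : List ℕ) (b : ℕ) : Prop := b + 1 ∈ L
def alive (L : List ℕ) (z : ℕ) : Prop :=
  (cN z = 0 ∧ ¬ brok L (pN z / 2)) ∨ (cN z = 1 ∧ brok L (pN z / 2))
def shown (L : List ℕ) (z : ℕ) : Prop := Dm L.length (wN z) z = true ∧ alive L z
def seenAt (L : List ℕ) (e t j : ℕ) : Prop :=
  ∃ z < L.length, shown L z ∧ eN z = e ∧ tN z = t ∧ OnS e j (pN z / 2)
def seen (L : List ℕ) (e t j : ℕ) : Prop := ∃ σ < L.length + 1, seenAt (L.take σ) e t j
def ev (s i t : ℕ) : Option ℕ := Code.evaln s (Denumerable.ofNat Code i) t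
def event (L : List ℕ) (q : ℕ) : Prop :=
  ∃ z < L.length, shown L z ∧ eN z = eQ q ∧ Asg q (pN z / 2) ∧
    ev L.length (iQ q) (tN z) ≠ none ∧ ev L.length (iQ q) (tN z) ≠ some (pN z)
def sat (L : List ℕ) (q : ℕ) : Prop := ∃ σ < L.length + 1, event (L.take σ) q
def conv (L : List ℕ) (q b : ℕ) : Prop :=
  b ≤ L.length ∧ ∀ t < b, seen L (eQ q) t (jQ q) → ev L.length (iQ q) t ≠ none
def frz0 (L : List ℕ) (b : ℕ) : Prop :=
  (∃ q < rB b, Asg q b ∧ sat L q) ∨ (∃ q < rB b, Mis q b ∧ ¬ sat L q ∧ conv L q b)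
def frz (L : List ℕ) (b : ℕ) : Prop := ∃ σ < L.length + 1, frz0 (L.take σ) b
def enb (L : List ℕ) (b : ℕ) : Prop := ∀ q < rB b, Asg q b → conv L q b
def cand (L : List ℕ) (b : ℕ) : Prop :=
  ¬ frz L b ∧ enb L b ∧ ev L.length (rB b) (2 * b) = some (2 * b) ∧
    ∀ x ∈ L, x ≠ 0 → rB (x - 1) ≠ rB b

open Classical in
/-- the action at the stage after history `L` -/
noncomputable def step (L : List ℕ) : ℕ :=
  if cand L L.length.unpair.1 then L.length.unpair.1 + 1 else 0

noncomputable def hist (s : ℕ) : List ℕ := Nat.rec [] (fun _ H => H ++ [step H]) s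

/-! ### Primitive recursiveness -/

theorem primrec_W : Primrec (fun p : ℕ × ℕ × ℕ => W p.1 p.2.1 p.2.2) := by
  unfold W
  refine Primrec.option_isSome.comp ?_
  exact Code.primrec_evaln.comp
    ((Primrec.fst.pair ((Primrec.ofNat Code).comp (Primrec.fst.comp Primrec.snd))).pair
      (Primrec.snd.comp Primrec.snd))

theorem primrec_u1 : Primrec (fun n : ℕ => n.unpair.1) := Primrec.fst.comp Primrec.unpair
theorem primrec_u2 : Primrec (fun n : ℕ => n.unpair.2) := Primrec.snd.comp Primrec.unpair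

theorem primrec_Dm {α : Type*} [Primcodable α] {f g h : α → ℕ} (hf : Primrec f) (hg : Primrec g)
    (hh : Primrec h) : Primrec (fun a => Dm (f a) (g a) (h a)) := by
  unfold Dm
  have h1 : Primrec (fun a => Nat.pair (g a).unpair.2 (h a)) :=
    Primrec₂.natPair.comp (primrec_u2.comp hg) hh
  refine Primrec.and.comp (primrec_W.comp (hf.pair ((primrec_u1.comp (primrec_u1.comp hg)).pair h1)))
    (Primrec.not.comp (primrec_W.comp (hf.pair ((primrec_u2.comp (primrec_u1.comp hg)).pair h1))))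

theorem primrec_ev {α : Type*} [Primcodable α] {f g h : α → ℕ} (hf : Primrec f) (hg : Primrec g)
    (hh : Primrec h) : Primrec (fun a => ev (f a) (g a) (h a)) := by
  unfold ev
  exact Code.primrec_evaln.comp ((hf.pair ((Primrec.ofNat Code).comp hg)).pair hh)

theorem primrec_cN : Primrec cN := primrec_u1.comp primrec_u1
theorem primrec_pN : Primrec pN := primrec_u2.comp primrec_u1
theorem primrec_wN : Primrec wN := primrec_u2
theorem primrec_eN : Primrec eN := primrec_u1.comp primrec_u2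
theorem primrec_tN : Primrec tN := primrec_u2.comp primrec_u2
theorem primrec_eQ : Primrec eQ := primrec_u1
theorem primrec_iQ : Primrec iQ := primrec_u1.comp primrec_u2
theorem primrec_jQ : Primrec jQ := primrec_u2.comp primrec_u2
theorem primrec_rB : Primrec rB := primrec_u1
theorem primrec_GB : Primrec GB := (Primrec.ofNat (List ℕ)).comp (primrec_u1.comp primrec_u2)

theorem primrec_mem : PrimrecRel (fun (x : ℕ) (L : List ℕ) => x ∈ L) := by
  have h : PrimrecRel (fun (L : List ℕ) (x : ℕ) => ∃ a ∈ L, a = x) :=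
    PrimrecRel.exists_mem_list Primrec.eq
  exact (h.comp₂ Primrec₂.right Primrec₂.left).of_eq fun x L => by simp

section P
variable {α : Type*} [Primcodable α]

theorem primrec_Clr {f g : α → ℕ} (hf : Primrec f) (hg : Primrec g) :
    PrimrecPred (fun a => Clr (f a) (g a)) := by
  unfold Clr
  refine all_lt (R := fun q' a => q' ∈ GB (g a) → eQ q' ≠ eQ (f a)) ?_ hf
  refine imp_pred (primrec_mem.comp Primrec.fst (primrec_GB.comp (hg.comp Primrec.snd))) ?_
  exact (Primrec.eq.comp (primrec_eQ.comp Primrec.fst)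
    (primrec_eQ.comp (hf.comp Primrec.snd))).not

theorem primrec_Asg {f g : α → ℕ} (hf : Primrec f) (hg : Primrec g) :
    PrimrecPred (fun a => Asg (f a) (g a)) :=
  (Primrec.nat_lt.comp hf (primrec_rB.comp hg)).and
    ((primrec_mem.comp hf (primrec_GB.comp hg)).and (primrec_Clr hf hg))

theorem primrec_Mis {f g : α → ℕ} (hf : Primrec f) (hg : Primrec g) :
    PrimrecPred (fun a => Mis (f a) (g a)) :=
  (Primrec.nat_lt.comp hf (primrec_rB.comp hg)).and
    ((primrec_mem.comp hf (primrec_GB.comp hg)).not.and (primrec_Clr hf hg))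

theorem primrec_OnS {e j b : α → ℕ} (he : Primrec e) (hj : Primrec j) (hb : Primrec b) :
    PrimrecPred (fun a => OnS (e a) (j a) (b a)) := by
  unfold OnS
  refine ex_lt (R := fun q a => Asg q (b a) ∧ eQ q = e a ∧ jQ q = j a) ?_ (primrec_rB.comp hb)
  exact (primrec_Asg Primrec.fst (hb.comp Primrec.snd)).and
    ((Primrec.eq.comp (primrec_eQ.comp Primrec.fst) (he.comp Primrec.snd)).and
      (Primrec.eq.comp (primrec_jQ.comp Primrec.fst) (hj.comp Primrec.snd)))

theorem primrec_brok {L : α → List ℕ} {b : α → ℕ} (hL : Primrec L) (hb : Primrec b) :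
    PrimrecPred (fun a => brok (L a) (b a)) :=
  primrec_mem.comp (Primrec.succ.comp hb) hL

theorem primrec_half {f : α → ℕ} (hf : Primrec f) : Primrec (fun a => f a / 2) :=
  Primrec.nat_div.comp hf (Primrec.const 2)

theorem primrec_alive {L : α → List ℕ} {z : α → ℕ} (hL : Primrec L) (hz : Primrec z) :
    PrimrecPred (fun a => alive (L a) (z a)) := by
  unfold alive
  have hb := primrec_brok hL (primrec_half (primrec_pN.comp hz))
  exact ((Primrec.eq.comp (primrec_cN.comp hz) (Primrec.const 0)).and hb.not).or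
    ((Primrec.eq.comp (primrec_cN.comp hz) (Primrec.const 1)).and hb)

theorem primrec_shown {L : α → List ℕ} {z : α → ℕ} (hL : Primrec L) (hz : Primrec z) :
    PrimrecPred (fun a => shown (L a) (z a)) := by
  unfold shown
  exact (Primrec.eq.comp (primrec_Dm (Primrec.list_length.comp hL) (primrec_wN.comp hz) hz)
    (Primrec.const true)).and (primrec_alive hL hz)

theorem primrec_seenAt {L : α → List ℕ} {e t j : α → ℕ} (hL : Primrec L) (he : Primrec e)
    (ht : Primrec t) (hj : Primrec j) :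
    PrimrecPred (fun a => seenAt (L a) (e a) (t a) (j a)) := by
  unfold seenAt
  refine ex_lt (R := fun z a => shown (L a) z ∧ eN z = e a ∧ tN z = t a ∧
    OnS (e a) (j a) (pN z / 2)) ?_ (Primrec.list_length.comp hL)
  exact (primrec_shown (hL.comp Primrec.snd) Primrec.fst).and
    ((Primrec.eq.comp (primrec_eN.comp Primrec.fst) (he.comp Primrec.snd)).and
      ((Primrec.eq.comp (primrec_tN.comp Primrec.fst) (ht.comp Primrec.snd)).and
        (primrec_OnS (he.comp Primrec.snd) (hj.comp Primrec.snd)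
          (primrec_half (primrec_pN.comp Primrec.fst)))))

theorem primrec_seen {L : α → List ℕ} {e t j : α → ℕ} (hL : Primrec L) (he : Primrec e)
    (ht : Primrec t) (hj : Primrec j) :
    PrimrecPred (fun a => seen (L a) (e a) (t a) (j a)) := by
  unfold seen
  exact ex_pre (R := fun M a => seenAt M (e a) (t a) (j a))
    (primrec_seenAt Primrec.fst (he.comp Primrec.snd) (ht.comp Primrec.snd)
      (hj.comp Primrec.snd)) hL

theorem primrec_event {L : α → List ℕ} {q : α → ℕ} (hL : Primrec L) (hq : Primrec q) :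
    PrimrecPred (fun a => event (L a) (q a)) := by
  unfold event
  refine ex_lt (R := fun z a => shown (L a) z ∧ eN z = eQ (q a) ∧ Asg (q a) (pN z / 2) ∧
    ev (L a).length (iQ (q a)) (tN z) ≠ none ∧ ev (L a).length (iQ (q a)) (tN z) ≠ some (pN z))
    ?_ (Primrec.list_length.comp hL)
  have h1 : Primrec (fun x : ℕ × α => ev (L x.2).length (iQ (q x.2)) (tN x.1)) :=
    primrec_ev (Primrec.list_length.comp (hL.comp Primrec.snd))
      (primrec_iQ.comp (hq.comp Primrec.snd)) (primrec_tN.comp Primrec.fst)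
  exact (primrec_shown (hL.comp Primrec.snd) Primrec.fst).and
    ((Primrec.eq.comp (primrec_eN.comp Primrec.fst) (primrec_eQ.comp (hq.comp Primrec.snd))).and
      ((primrec_Asg (hq.comp Primrec.snd) (primrec_half (primrec_pN.comp Primrec.fst))).and
        ((Primrec.eq.comp h1 (Primrec.const none)).not.and
          (Primrec.eq.comp h1 (Primrec.option_some.comp (primrec_pN.comp Primrec.fst))).not)))

theorem primrec_sat {L : α → List ℕ} {q : α → ℕ} (hL : Primrec L) (hq : Primrec q) :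
    PrimrecPred (fun a => sat (L a) (q a)) := by
  unfold sat
  exact ex_pre (R := fun M a => event M (q a)) (primrec_event Primrec.fst (hq.comp Primrec.snd)) hL

theorem primrec_conv {L : α → List ℕ} {q b : α → ℕ} (hL : Primrec L) (hq : Primrec q)
    (hb : Primrec b) : PrimrecPred (fun a => conv (L a) (q a) (b a)) := by
  unfold conv
  refine (Primrec.nat_le.comp hb (Primrec.list_length.comp hL)).and ?_
  refine all_lt (R := fun t a => seen (L a) (eQ (q a)) t (jQ (q a)) →
    ev (L a).length (iQ (q a)) t ≠ none) ?_ hb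
  refine imp_pred (primrec_seen (hL.comp Primrec.snd) (primrec_eQ.comp (hq.comp Primrec.snd))
    Primrec.fst (primrec_jQ.comp (hq.comp Primrec.snd))) ?_
  exact (Primrec.eq.comp (primrec_ev (Primrec.list_length.comp (hL.comp Primrec.snd))
      (primrec_iQ.comp (hq.comp Primrec.snd)) Primrec.fst) (Primrec.const none)).not

theorem primrec_frz0 {L : α → List ℕ} {b : α → ℕ} (hL : Primrec L) (hb : Primrec b) :
    PrimrecPred (fun a => frz0 (L a) (b a)) := by
  unfold frz0
  refine PrimrecPred.or ?_ ?_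
  · refine ex_lt (R := fun q a => Asg q (b a) ∧ sat (L a) q) ?_ (primrec_rB.comp hb)
    exact (primrec_Asg Primrec.fst (hb.comp Primrec.snd)).and
      (primrec_sat (hL.comp Primrec.snd) Primrec.fst)
  · refine ex_lt (R := fun q a => Mis q (b a) ∧ ¬ sat (L a) q ∧ conv (L a) q (b a)) ?_
      (primrec_rB.comp hb)
    exact (primrec_Mis Primrec.fst (hb.comp Primrec.snd)).and
      ((primrec_sat (hL.comp Primrec.snd) Primrec.fst).not.and
        (primrec_conv (hL.comp Primrec.snd) Primrec.fst (hb.comp Primrec.snd)))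

theorem primrec_frz {L : α → List ℕ} {b : α → ℕ} (hL : Primrec L) (hb : Primrec b) :
    PrimrecPred (fun a => frz (L a) (b a)) := by
  unfold frz
  exact ex_pre (R := fun M a => frz0 M (b a)) (primrec_frz0 Primrec.fst (hb.comp Primrec.snd)) hL

theorem primrec_enb {L : α → List ℕ} {b : α → ℕ} (hL : Primrec L) (hb : Primrec b) :
    PrimrecPred (fun a => enb (L a) (b a)) := by
  unfold enb
  refine all_lt (R := fun q a => Asg q (b a) → conv (L a) q (b a)) ?_ (primrec_rB.comp hb)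
  exact imp_pred (primrec_Asg Primrec.fst (hb.comp Primrec.snd))
    (primrec_conv (hL.comp Primrec.snd) Primrec.fst (hb.comp Primrec.snd))

theorem primrec_cand {L : α → List ℕ} {b : α → ℕ} (hL : Primrec L) (hb : Primrec b) :
    PrimrecPred (fun a => cand (L a) (b a)) := by
  unfold cand
  have h2 : Primrec (fun a => 2 * b a) := Primrec.nat_mul.comp (Primrec.const 2) hb
  refine (primrec_frz hL hb).not.and ((primrec_enb hL hb).and (PrimrecPred.and ?_ ?_))
  · exact Primrec.eq.comp (primrec_ev (Primrec.list_length.comp hL) (primrec_rB.comp hb) h2)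
      (Primrec.option_some.comp h2)
  · have hR : PrimrecRel (fun (x : ℕ) (a : α) => x ≠ 0 → rB (x - 1) ≠ rB (b a)) := by
      refine imp_pred (Primrec.eq.comp Primrec.fst (Primrec.const 0)).not ?_
      exact (Primrec.eq.comp (primrec_rB.comp (Primrec.pred.comp Primrec.fst))
        (primrec_rB.comp (hb.comp Primrec.snd))).not
    exact (hR.forall_mem_list.comp hL Primrec.id).of_eq fun a => by simp

end P

open Classical in
theorem primrec_step : Primrec step := by
  unfold step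
  have h1 : Primrec (fun L : List ℕ => L.length.unpair.1) := primrec_u1.comp Primrec.list_length
  exact Primrec.ite (primrec_cand Primrec.id h1) (Primrec.succ.comp h1) (Primrec.const 0)

theorem primrec_hist : Primrec hist := by
  unfold hist
  refine Primrec.nat_rec₁ [] ?_
  exact Primrec.list_concat.comp Primrec.snd (primrec_step.comp Primrec.snd)


/-! ### Basic facts on the history -/

theorem hist_succ (s : ℕ) : hist (s + 1) = hist s ++ [step (hist s)] := rfl

@[simp] theorem hist_length (s : ℕ) : (hist s).length = s := by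
  induction s with
  | zero => rfl
  | succ s ih => rw [hist_succ, List.length_append, ih]; rfl

theorem hist_prefix {σ s : ℕ} (h : σ ≤ s) : hist σ <+: hist s := by
  induction h with
  | refl => exact List.prefix_rfl
  | step _ ih => rw [hist_succ]; exact ih.trans (List.prefix_append _ _)

theorem hist_take {σ s : ℕ} (h : σ ≤ s) : (hist s).take σ = hist σ := by
  have := List.prefix_iff_eq_take.1 (hist_prefix h)
  rw [hist_length] at this
  exact this.symm

theorem seen_iff {s e t j : ℕ} : seen (hist s) e t j ↔ ∃ σ ≤ s, seenAt (hist σ) e t j := by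
  unfold seen
  rw [hist_length]
  constructor
  · rintro ⟨σ, h, h'⟩
    rw [hist_take (by omega)] at h'
    exact ⟨σ, by omega, h'⟩
  · rintro ⟨σ, h, h'⟩
    exact ⟨σ, by omega, by rwa [hist_take h]⟩

theorem sat_iff {s q : ℕ} : sat (hist s) q ↔ ∃ σ ≤ s, event (hist σ) q := by
  unfold sat
  rw [hist_length]
  constructor
  · rintro ⟨σ, h, h'⟩
    rw [hist_take (by omega)] at h'
    exact ⟨σ, by omega, h'⟩
  · rintro ⟨σ, h, h'⟩
    exact ⟨σ, by omega, by rwa [hist_take h]⟩

theorem frz_iff {s b : ℕ} : frz (hist s) b ↔ ∃ σ ≤ s, frz0 (hist σ) b := by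
  unfold frz
  rw [hist_length]
  constructor
  · rintro ⟨σ, h, h'⟩
    rw [hist_take (by omega)] at h'
    exact ⟨σ, by omega, h'⟩
  · rintro ⟨σ, h, h'⟩
    exact ⟨σ, by omega, by rwa [hist_take h]⟩

theorem seen_mono {s s' e t j : ℕ} (h : s ≤ s') (hs : seen (hist s) e t j) :
    seen (hist s') e t j := by
  rw [seen_iff] at *
  obtain ⟨σ, h1, h2⟩ := hs
  exact ⟨σ, h1.trans h, h2⟩

theorem sat_mono {s s' q : ℕ} (h : s ≤ s') (hs : sat (hist s) q) : sat (hist s') q := by
  rw [sat_iff] at *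
  obtain ⟨σ, h1, h2⟩ := hs
  exact ⟨σ, h1.trans h, h2⟩

theorem frz_mono {s s' b : ℕ} (h : s ≤ s') (hs : frz (hist s) b) : frz (hist s') b := by
  rw [frz_iff] at *
  obtain ⟨σ, h1, h2⟩ := hs
  exact ⟨σ, h1.trans h, h2⟩

theorem brok_mono {s s' b : ℕ} (h : s ≤ s') (hs : brok (hist s) b) : brok (hist s') b :=
  (hist_prefix h).subset hs

theorem brok_succ {s b : ℕ} (h : brok (hist (s + 1)) b) :
    brok (hist s) b ∨ (s.unpair.1 = b ∧ cand (hist s) b) := by
  unfold brok at *
  rw [hist_succ, List.mem_append] at h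
  rcases h with h | h
  · exact Or.inl h
  · right
    have h' : b + 1 = step (hist s) := by simpa using h
    unfold step at h'
    rw [hist_length] at h'
    split_ifs at h' with hc
    have : s.unpair.1 = b := by omega
    rw [this] at hc
    exact ⟨this, hc⟩

theorem brok_of_cand {s b : ℕ} (h1 : s.unpair.1 = b) (h2 : cand (hist s) b) :
    brok (hist (s + 1)) b := by
  unfold brok
  rw [hist_succ, List.mem_append]
  right
  subst h1
  simp only [List.mem_singleton]
  unfold step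
  rw [hist_length, if_pos h2]

/-- if a block becomes broken between two stages then it was a candidate in between -/
theorem exists_cand {s s' b : ℕ} (h : s ≤ s') (h1 : ¬ brok (hist s) b) (h2 : brok (hist s') b) :
    ∃ σ, s ≤ σ ∧ σ < s' ∧ ¬ brok (hist σ) b ∧ cand (hist σ) b ∧ brok (hist (σ + 1)) b := by
  induction h with
  | refl => exact absurd h2 h1
  | @step m hm ih =>
    by_cases hb : brok (hist m) b
    · obtain ⟨σ, a1, a2, a3⟩ := ih hb
      exact ⟨σ, a1, by omega, a3⟩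
    · rcases brok_succ h2 with h3 | h3
      · exact absurd h3 hb
      · exact ⟨m, hm, by omega, hb, h3.2, h2⟩

theorem not_brok_zero (b : ℕ) : ¬ brok (hist 0) b := by
  unfold brok hist
  simp

/-- the block `b` is eventually broken -/
def BrF (b : ℕ) : Prop := ∃ s, brok (hist s) b

theorem brok_final (b : ℕ) : ∃ s₀, ∀ s ≥ s₀, (brok (hist s) b ↔ BrF b) := by
  by_cases h : BrF b
  · obtain ⟨s, hs⟩ := h
    exact ⟨s, fun s' hs' => ⟨fun h' => ⟨s', h'⟩, fun _ => brok_mono hs' hs⟩⟩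
  · exact ⟨0, fun s' _ => ⟨fun h' => ⟨s', h'⟩, fun h' => absurd h' h⟩⟩

/-- a block frozen at stage `s` is not broken later -/
theorem brok_of_frz {s b : ℕ} (h : frz (hist s) b) : ∀ s' ≥ s, (brok (hist s') b ↔ BrF b) := by
  intro s' hs'
  refine ⟨fun h' => ⟨s', h'⟩, fun ⟨t, ht⟩ => ?_⟩
  by_contra hn
  have ht' : brok (hist (max t s')) b := brok_mono (le_max_left _ _) ht
  obtain ⟨σ, h1, _, _, h4, _⟩ := exists_cand (le_max_right t s') hn ht'
  exact h4.1 (frz_mono (hs'.trans h1) h)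

/-- at most one block is broken for each `r` -/
theorem brok_unique {s b b' : ℕ} (hb : brok (hist s) b) (hb' : brok (hist s) b')
    (hr : rB b = rB b') : b = b' := by
  by_contra hne
  wlog H : ∃ σ, brok (hist σ) b ∧ ¬ brok (hist σ) b' generalizing b b' with Hw
  · refine Hw hb' hb hr.symm (Ne.symm hne) ?_
    by_contra hcon
    push Not at hcon H
    -- first stage at which b is broken
    obtain ⟨σ, _, _, h3, h4, h5⟩ := exists_cand (Nat.zero_le s) (not_brok_zero b) hb
    have h6 := H _ h5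
    rcases brok_succ h6 with h7 | h7
    · exact h3 (hcon _ h7)
    · rcases brok_succ h5 with h8 | h8
      · exact h3 h8
      · exact hne (h8.1.symm.trans h7.1)
  obtain ⟨σ, h1, h2⟩ := H
  have h3 : brok (hist (max σ s)) b' := brok_mono (le_max_right _ _) hb'
  obtain ⟨τ, h4, _, _, h5, _⟩ := exists_cand (le_max_left σ s) h2 h3
  have h6 : brok (hist τ) b := brok_mono h4 h1
  exact h5.2.2.2 (b + 1) h6 (by omega) (by simpa using hr)

/-! ### Facts on tokens -/

theorem W_lt {s e y : ℕ} (h : W s e y = true) : y < s := by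
  unfold W at h
  obtain ⟨v, hv⟩ := Option.isSome_iff_exists.1 h
  exact Code.evaln_bound hv

theorem W_mono {s t e y : ℕ} (hst : s ≤ t) (h : W s e y = true) : W t e y = true := by
  unfold W at h ⊢
  obtain ⟨v, hv⟩ := Option.isSome_iff_exists.1 h
  exact Option.isSome_iff_exists.2 ⟨v, Code.evaln_mono hst hv⟩

theorem ev_mono {s t i x n : ℕ} (hst : s ≤ t) (h : ev s i x = some n) : ev t i x = some n :=
  Code.evaln_mono hst h

theorem ev_inj {s t i x n m : ℕ} (h : ev s i x = some n) (h' : ev t i x = some m) : n = m := by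
  have h1 := ev_mono (le_max_left s t) h
  have h2 := ev_mono (le_max_right s t) h'
  rw [h1] at h2
  exact Option.some.inj h2

theorem Dm_true {s w x : ℕ} (h : Dm s w x = true) :
    W s w.unpair.1.unpair.1 (Nat.pair w.unpair.2 x) = true ∧
      W s w.unpair.1.unpair.2 (Nat.pair w.unpair.2 x) = false := by
  unfold Dm at h
  simpa using h

theorem Dm_lt {s w x : ℕ} (h : Dm s w x = true) : x < s :=
  (Nat.right_le_pair _ _).trans_lt (W_lt (Dm_true h).1)

theorem Dm_no_return {s₁ s₂ s₃ w x : ℕ} (h12 : s₁ ≤ s₂) (h23 : s₂ ≤ s₃)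
    (h1 : Dm s₁ w x = true) (h2 : Dm s₂ w x = false) : Dm s₃ w x = false := by
  have a := W_mono h12 (Dm_true h1).1
  have b : W s₂ w.unpair.1.unpair.2 (Nat.pair w.unpair.2 x) = true := by
    unfold Dm at h2
    rw [a] at h2
    simpa using h2
  have c := W_mono h23 b
  unfold Dm
  rw [c]; simp

/-- `x` is finally in the token `w` -/
def Dl (w x : ℕ) : Prop := ∃ s₀, ∀ s ≥ s₀, Dm s w x = true

theorem not_Dl {w x : ℕ} (h : ¬ Dl w x) : ∃ s₀, ∀ s ≥ s₀, Dm s w x = false := by
  by_cases h1 : ∃ s, W s w.unpair.1.unpair.2 (Nat.pair w.unpair.2 x) = true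
  · obtain ⟨s, hs⟩ := h1
    refine ⟨s, fun s' hs' => ?_⟩
    unfold Dm
    rw [W_mono hs' hs]; simp
  · push Not at h1
    by_cases h2 : ∃ s, W s w.unpair.1.unpair.1 (Nat.pair w.unpair.2 x) = true
    · obtain ⟨s, hs⟩ := h2
      refine absurd ⟨s, fun s' hs' => ?_⟩ h
      unfold Dm
      rw [W_mono hs' hs]
      have := h1 s'
      simpa using this
    · push Not at h2
      refine ⟨0, fun s' _ => ?_⟩
      unfold Dm
      have := h2 s'
      simp only [Bool.not_eq_true] at this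
      rw [this]; simp

theorem not_Dl_of {s₁ s₂ w x : ℕ} (h12 : s₁ ≤ s₂) (h1 : Dm s₁ w x = true)
    (h2 : Dm s₂ w x = false) : ¬ Dl w x := by
  rintro ⟨s₀, h⟩
  have a := h (max s₀ s₂) (le_max_left _ _)
  have b := Dm_no_return h12 (le_max_right s₀ s₂) h1 h2
  rw [a] at b
  exact Bool.noConfusion b

/-! ### The family -/

def aliveF (z : ℕ) : Prop := (cN z = 0 ∧ ¬ BrF (pN z / 2)) ∨ (cN z = 1 ∧ BrF (pN z / 2))

/-- the token named by `z` dropped the name `z` while it was alive -/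
def KF (z : ℕ) : Prop :=
  ∃ s₁ s₂, s₁ < s₂ ∧ shown (hist s₁) z ∧ Dm s₂ (wN z) z = false ∧ alive (hist s₂) z

/-- the token named by `z` dropped `z` and then showed a name in another block -/
def LF (z : ℕ) : Prop :=
  ∃ s₁ s₂, s₁ < s₂ ∧ shown (hist s₁) z ∧ Dm s₂ (wN z) z = false ∧
    ∃ z', wN z' = wN z ∧ pN z' / 2 ≠ pN z / 2 ∧ shown (hist s₂) z'

def mu (p : ℕ) : Set ℕ := {z | (pN z = p ∧ aliveF z) ∨ KF z ∨ (LF z ∧ pN z / 2 ≠ p / 2)}

theorem alive_final (z : ℕ) : ∃ s₀, ∀ s ≥ s₀, (alive (hist s) z ↔ aliveF z) := by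
  obtain ⟨s₀, h⟩ := brok_final (pN z / 2)
  exact ⟨s₀, fun s hs => by unfold alive aliveF; rw [h s hs]⟩

@[simp] theorem cN_nm (c p w : ℕ) : cN (nm c p w) = c := by simp [cN, nm]
@[simp] theorem pN_nm (c p w : ℕ) : pN (nm c p w) = p := by simp [pN, nm]
@[simp] theorem wN_nm (c p w : ℕ) : wN (nm c p w) = w := by simp [wN, nm]

open Classical in
/-- the final name of position `p` for the token `w` -/
noncomputable def fnm (p w : ℕ) : ℕ := nm (if BrF (p / 2) then 1 else 0) p w

@[simp] theorem pN_fnm (p w : ℕ) : pN (fnm p w) = p := by simp [fnm]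
@[simp] theorem wN_fnm (p w : ℕ) : wN (fnm p w) = w := by simp [fnm]
theorem aliveF_fnm (p w : ℕ) : aliveF (fnm p w) := by
  unfold aliveF
  rw [pN_fnm]
  unfold fnm
  rw [cN_nm]
  by_cases h : BrF (p / 2)
  · right; exact ⟨if_pos h, h⟩
  · left; exact ⟨if_neg h, h⟩

/-! ### The tie lemma -/

section Tie
variable {w p₀ : ℕ} (h : ∀ x, Dl w x ↔ x ∈ mu p₀)
include h

theorem tie_K {z : ℕ} (hz : wN z = w) : ¬ KF z := by
  intro hK
  obtain ⟨s₁, s₂, h1, h2, h3, _⟩ := id hK
  rw [hz] at h3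
  have h2' := h2.1
  rw [hist_length, hz] at h2'
  exact not_Dl_of h1.le h2' h3 ((h z).2 (Or.inr (Or.inl hK)))

theorem tie_final : ∃ s₀, ∀ s ≥ s₀, shown (hist s) (fnm p₀ w) := by
  have h1 : Dl w (fnm p₀ w) := (h _).2 (Or.inl ⟨pN_fnm _ _, aliveF_fnm _ _⟩)
  obtain ⟨s₀, hs₀⟩ := h1
  obtain ⟨s₁, hs₁⟩ := alive_final (fnm p₀ w)
  refine ⟨max s₀ s₁, fun s hs => ⟨?_, ?_⟩⟩
  · rw [hist_length, wN_fnm]; exact hs₀ s (le_trans (le_max_left _ _) hs)
  · exact (hs₁ s (le_trans (le_max_right _ _) hs)).2 (aliveF_fnm _ _)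

/-- a name of `w` in another block which is not finally held was the cause of an `LF` event -/
theorem tie_drop {z s : ℕ} (hz : wN z = w) (hs : shown (hist s) z) (hb : pN z / 2 ≠ p₀ / 2)
    (hd : ¬ Dl w z) : LF z := by
  obtain ⟨s₀, hs₀⟩ := not_Dl hd
  obtain ⟨s₁, hs₁⟩ := tie_final h
  refine ⟨s, s₀ + s₁ + s + 1, by omega, hs, ?_, fnm p₀ w, ?_, ?_, hs₁ _ (by omega)⟩
  · rw [hz]; exact hs₀ _ (by omega)
  · rw [wN_fnm, hz]
  · rw [pN_fnm]; exact hb.symm

theorem tie_L {z : ℕ} (hz : wN z = w) : ¬ LF z := by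
  intro hL
  obtain ⟨s₁, s₂, h1, h2, h3, z', h4, h5, h6⟩ := id hL
  rw [hz] at h3 h4
  have h2' := h2.1
  rw [hist_length, hz] at h2'
  have hd : ¬ Dl w z := not_Dl_of h1.le h2' h3
  have hb : pN z / 2 = p₀ / 2 := by
    by_contra hne
    exact hd ((h z).2 (Or.inr (Or.inr ⟨hL, hne⟩)))
  rw [hb] at h5
  have h6' := h6.1
  rw [hist_length, h4] at h6'
  by_cases hd' : Dl w z'
  · rcases (h z').1 hd' with a | a | a
    · exact h5 (by rw [a.1])
    · exact tie_K h h4 a
    · obtain ⟨⟨t₁, t₂, b1, b2, b3, _⟩, _⟩ := a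
      have b2' := b2.1
      rw [hist_length] at b2'
      rw [h4] at b3 b2'
      exact not_Dl_of b1.le b2' b3 hd'
  · have := tie_drop h h4 h6 h5 hd'
    exact hd' ((h z').2 (Or.inr (Or.inr ⟨this, h5⟩)))

theorem tie_mem {z : ℕ} (hz : wN z = w) (hd : Dl w z) : pN z = p₀ ∧ aliveF z := by
  rcases (h z).1 hd with a | a | a
  · exact a
  · exact absurd a (tie_K h hz)
  · exact absurd a.1 (tie_L h hz)

theorem tie_block {z s : ℕ} (hz : wN z = w) (hs : shown (hist s) z) : pN z / 2 = p₀ / 2 := by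
  by_contra hne
  by_cases hd : Dl w z
  · exact hne (by rw [(tie_mem h hz hd).1])
  · exact tie_L h hz (tie_drop h hz hs hne hd)

theorem tie_pos {z s : ℕ} (hz : wN z = w) (hs : shown (hist s) z) (hF : aliveF z) :
    pN z = p₀ := by
  by_cases hd : Dl w z
  · exact (tie_mem h hz hd).1
  · exfalso
    obtain ⟨s₀, hs₀⟩ := not_Dl hd
    obtain ⟨s₁, hs₁⟩ := alive_final z
    refine tie_K h hz ⟨s, s₀ + s₁ + s + 1, by omega, hs, ?_, ?_⟩
    · rw [hz]; exact hs₀ _ (by omega)
    · exact (hs₁ _ (by omega)).2 hF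

end Tie


/-! ### The requirements -/

/-- the partial function of `q` is defined on every token of `eQ q` seen on side `jQ q` -/
def Tot (q : ℕ) : Prop :=
  ∀ t, (∃ s, seen (hist s) (eQ q) t (jQ q)) → ∃ s, ev s (iQ q) t ≠ none

def SatF (q : ℕ) : Prop := ∃ s, sat (hist s) q

theorem bdd_all {n : ℕ} {P : ℕ → ℕ → Prop} (h : ∀ x < n, ∃ s₀, ∀ s ≥ s₀, P x s) :
    ∃ s₀, ∀ s ≥ s₀, ∀ x < n, P x s := by
  induction n with
  | zero => exact ⟨0, fun s _ x hx => absurd hx (Nat.not_lt_zero _)⟩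
  | succ n ih =>
    obtain ⟨a, ha⟩ := ih fun x hx => h x (by omega)
    obtain ⟨b, hb⟩ := h n (by omega)
    refine ⟨max a b, fun s hs x hx => ?_⟩
    rcases Nat.lt_succ_iff_lt_or_eq.1 hx with h1 | h1
    · exact ha s (le_trans (le_max_left _ _) hs) x h1
    · subst h1; exact hb s (le_trans (le_max_right _ _) hs)

theorem conv_ev {q : ℕ} (hT : Tot q) (b : ℕ) : ∃ s₀, ∀ s ≥ s₀, conv (hist s) q b := by
  have h1 : ∀ t < b, ∃ s₀, ∀ s ≥ s₀, (seen (hist s) (eQ q) t (jQ q) → ev s (iQ q) t ≠ none) := by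
    intro t _
    by_cases h : ∃ s, seen (hist s) (eQ q) t (jQ q)
    · obtain ⟨s, hs⟩ := hT t h
      obtain ⟨n, hn⟩ := Option.ne_none_iff_exists'.1 hs
      refine ⟨s, fun s' hs' _ => ?_⟩
      rw [ev_mono hs' hn]; simp
    · exact ⟨0, fun s _ hs => absurd ⟨s, hs⟩ h⟩
  obtain ⟨s₀, hs₀⟩ := bdd_all h1
  refine ⟨max s₀ b, fun s hs => ⟨?_, ?_⟩⟩
  · rw [hist_length]; exact le_trans (le_max_right _ _) hs
  · rw [hist_length]; exact hs₀ s (le_trans (le_max_left _ _) hs)

theorem not_conv {q : ℕ} (hT : ¬ Tot q) : ∃ N, ∀ s b, N ≤ b → ¬ conv (hist s) q b := by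
  unfold Tot at hT
  push Not at hT
  obtain ⟨t, ⟨s₀, hs₀⟩, h⟩ := hT
  refine ⟨max (t + 1) s₀, fun s b hb hc => ?_⟩
  obtain ⟨h1, h2⟩ := hc
  rw [hist_length] at h1 h2
  have h3 : t < b := by have := le_max_left (t + 1) s₀; omega
  have h4 : s₀ ≤ s := by have := le_max_right (t + 1) s₀; omega
  exact h2 t h3 (seen_mono h4 hs₀) (h s)

theorem Asg_unique {q q' b : ℕ} (h : Asg q b) (h' : Asg q' b) (he : eQ q = eQ q') : q = q' := by
  rcases lt_trichotomy q q' with h1 | h1 | h1
  · exact absurd he (h'.2.2 q h1 h.2.1)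
  · exact h1
  · exact absurd he.symm (h.2.2 q' h1 h'.2.1)

theorem final_asg {q : ℕ} (hq : SatF q ∨ ¬ Tot q) :
    ∃ S, ∀ s ≥ S, ∀ b, Asg q b → (brok (hist s) b ↔ BrF b) := by
  rcases hq with ⟨S, hS⟩ | hT
  · refine ⟨S, fun s hs b hb => ?_⟩
    refine brok_of_frz (s := S) ?_ s hs
    rw [frz_iff]
    exact ⟨S, le_rfl, Or.inl ⟨q, hb.1, hb, hS⟩⟩
  · obtain ⟨N, hN⟩ := not_conv hT
    obtain ⟨S, hS⟩ := bdd_all (n := N) (P := fun b s => (brok (hist s) b ↔ BrF b))
      fun b _ => brok_final b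
    refine ⟨S, fun s hs b hb => ?_⟩
    by_cases hbN : b < N
    · exact hS s hs b hbN
    · have : ¬ BrF b := by
        rintro ⟨t, ht⟩
        obtain ⟨σ, _, _, _, h4, _⟩ := exists_cand (Nat.zero_le t) (not_brok_zero b) ht
        exact hN σ b (by omega) (h4.2.1 q hb.1 hb)
      exact ⟨fun h' => ⟨s, h'⟩, fun h' => absurd h' this⟩

theorem final_r (q : ℕ) : ∃ S, ∀ s ≥ S, ∀ b, rB b ≤ q → (brok (hist s) b ↔ BrF b) := by
  have h1 : ∀ r < q + 1, ∃ S, ∀ s ≥ S, ∀ b, rB b = r → (brok (hist s) b ↔ BrF b) := by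
    intro r _
    by_cases h : ∃ b s, rB b = r ∧ brok (hist s) b
    · obtain ⟨b, s, hb, hs⟩ := h
      refine ⟨s, fun s' hs' b' hb' => ⟨fun h' => ⟨s', h'⟩, fun ⟨t, ht⟩ => ?_⟩⟩
      have e1 := brok_unique (brok_mono (le_max_left s t) hs) (brok_mono (le_max_right s t) ht)
        (hb.trans hb'.symm)
      rw [← e1]
      exact brok_mono hs' hs
    · push Not at h
      refine ⟨0, fun s _ b hb => ⟨fun h' => ⟨s, h'⟩, fun ⟨t, ht⟩ => absurd ht (h b t hb)⟩⟩
  obtain ⟨S, hS⟩ := bdd_all h1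
  exact ⟨S, fun s hs b hb => hS s hs (rB b) (by omega) b rfl⟩

theorem final_rest {q : ℕ} (hS : ¬ SatF q)
    (hmin : ∀ q' < q, eQ q' = eQ q → SatF q' ∨ ¬ Tot q') :
    ∃ S, ∀ s ≥ S, ∀ b, ¬ Asg q b → (Mis q b → conv (hist s) q b) →
      (brok (hist s) b ↔ BrF b) := by
  obtain ⟨S₁, hS₁⟩ := final_r q
  obtain ⟨S₂, hS₂⟩ := bdd_all (n := q)
    (P := fun q' s => eQ q' = eQ q → ∀ b, Asg q' b → (brok (hist s) b ↔ BrF b)) (by
      intro q' hq'
      by_cases he : eQ q' = eQ q
      · obtain ⟨S, hS⟩ := final_asg (hmin q' hq' he)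
        exact ⟨S, fun s hs _ b hb => hS s hs b hb⟩
      · exact ⟨0, fun s _ h' => absurd h' he⟩)
  refine ⟨max S₁ S₂, fun s hs b hb hc => ?_⟩
  by_cases hr : rB b ≤ q
  · exact hS₁ s (le_trans (le_max_left _ _) hs) b hr
  by_cases hC : Clr q b
  · have hm : Mis q b := ⟨by omega, fun h' => hb ⟨by omega, h', hC⟩, hC⟩
    refine brok_of_frz (s := s) ?_ s le_rfl
    rw [frz_iff]
    exact ⟨s, le_rfl, Or.inr ⟨q, by omega, hm, fun h' => hS ⟨s, h'⟩, hc hm⟩⟩
  · unfold Clr at hC
    push Not at hC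
    classical
    have hex : ∃ q', q' < q ∧ q' ∈ GB b ∧ eQ q' = eQ q := by
      obtain ⟨q', a1, a2, a3⟩ := hC
      exact ⟨q', a1, a2, a3⟩
    obtain ⟨a1, a2, a3⟩ := Nat.find_spec hex
    refine hS₂ s (le_trans (le_max_right _ _) hs) (Nat.find hex) a1 a3 b ⟨by omega, a2, ?_⟩
    intro q'' hq'' hmem he
    exact Nat.find_min hex hq'' ⟨hq''.trans a1, hmem, he.trans a3⟩

theorem wN_eq {z e t : ℕ} : wN z = Nat.pair e t ↔ eN z = e ∧ tN z = t := by
  unfold wN eN tN
  constructor
  · intro h; rw [h]; simp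
  · rintro ⟨rfl, rfl⟩; simp

section Core
variable {e : ℕ} {pos : ℕ → ℕ} (hpos : ∀ t x, Dl (Nat.pair e t) x ↔ x ∈ mu (pos t))
include hpos

theorem late_event {t : ℕ} : ∃ s₀, ∀ s ≥ s₀, shown (hist s) (fnm (pos t) (Nat.pair e t)) ∧
    fnm (pos t) (Nat.pair e t) < s := by
  obtain ⟨s₀, hs₀⟩ := tie_final (hpos t)
  refine ⟨s₀, fun s hs => ⟨hs₀ s hs, ?_⟩⟩
  have := (hs₀ s hs).1
  rw [hist_length] at this
  exact Dm_lt this

/-- on its own blocks an unsatisfied total requirement predicts the position -/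
theorem own_blocks {q : ℕ} (hq : eQ q = e) (hT : Tot q) (hS : ¬ SatF q) {t : ℕ}
    (ht : Asg q (pos t / 2)) : ∃ s₀, ∀ s ≥ s₀, ev s (iQ q) t = some (pos t) := by
  obtain ⟨s₀, hs₀⟩ := late_event hpos (t := t)
  have he : eN (fnm (pos t) (Nat.pair e t)) = e ∧ tN (fnm (pos t) (Nat.pair e t)) = t :=
    wN_eq.1 (wN_fnm _ _)
  have hseen : seen (hist s₀) (eQ q) t (jQ q) := by
    rw [seen_iff]
    refine ⟨s₀, le_rfl, fnm (pos t) (Nat.pair e t), ?_, (hs₀ s₀ le_rfl).1, he.1.trans hq.symm,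
      he.2, q, ?_, ?_, rfl, rfl⟩
    · rw [hist_length]; exact (hs₀ s₀ le_rfl).2
    · rw [pN_fnm]; exact ht.1
    · rw [pN_fnm]; exact ht
  obtain ⟨s₁, hs₁⟩ := hT t ⟨s₀, hseen⟩
  obtain ⟨n, hn⟩ := Option.ne_none_iff_exists'.1 hs₁
  refine ⟨max s₀ s₁, fun s hs => ?_⟩
  have h1 := ev_mono (le_trans (le_max_right _ _) hs) hn
  by_contra hne
  refine hS ⟨s, sat_iff.2 ⟨s, le_rfl, fnm (pos t) (Nat.pair e t), ?_, ?_, he.1.trans hq.symm,
    ?_, ?_, ?_⟩⟩
  · rw [hist_length]; exact (hs₀ s (le_trans (le_max_left _ _) hs)).2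
  · exact (hs₀ s (le_trans (le_max_left _ _) hs)).1
  · rw [pN_fnm]; exact ht
  · rw [hist_length, he.2, h1]; simp
  · rw [hist_length, he.2, pN_fnm]; exact hne

open Classical in
theorem core_min {q : ℕ} (hq : eQ q = e) (hT : Tot q) (hS : ¬ SatF q)
    (hmin : ∀ q' < q, eQ q' = eQ q → SatF q' ∨ ¬ Tot q') : Computable pos := by
  obtain ⟨S, hSS⟩ := final_rest hS hmin
  let P : ℕ → ℕ → Prop := fun t n =>
    shown (hist n.unpair.1) n.unpair.2 ∧ eN n.unpair.2 = e ∧ tN n.unpair.2 = t ∧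
      ((Asg q (pN n.unpair.2 / 2) ∧ ev n.unpair.1 (iQ q) t = some (pN n.unpair.2)) ∨
       (¬ Asg q (pN n.unpair.2 / 2) ∧ S ≤ n.unpair.1 ∧
        (Mis q (pN n.unpair.2 / 2) → conv (hist n.unpair.1) q (pN n.unpair.2 / 2))))
  have hP : ComputablePred (fun p : ℕ × ℕ => P p.1 p.2) := by
    refine PrimrecPred.computablePred ?_
    have u1 : Primrec (fun p : ℕ × ℕ => p.2.unpair.1) := primrec_u1.comp Primrec.snd
    have u2 : Primrec (fun p : ℕ × ℕ => p.2.unpair.2) := primrec_u2.comp Primrec.snd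
    have uh : Primrec (fun p : ℕ × ℕ => hist p.2.unpair.1) := primrec_hist.comp u1
    have ub : Primrec (fun p : ℕ × ℕ => pN p.2.unpair.2 / 2) :=
      primrec_half (primrec_pN.comp u2)
    have hA : PrimrecPred (fun p : ℕ × ℕ => Asg q (pN p.2.unpair.2 / 2)) :=
      primrec_Asg (Primrec.const q) ub
    refine (primrec_shown uh u2).and ((Primrec.eq.comp (primrec_eN.comp u2) (Primrec.const e)).and
      ((Primrec.eq.comp (primrec_tN.comp u2) Primrec.fst).and (PrimrecPred.or ?_ ?_)))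
    · exact hA.and (Primrec.eq.comp (primrec_ev u1 (Primrec.const (iQ q)) Primrec.fst)
        (Primrec.option_some.comp (primrec_pN.comp u2)))
    · exact hA.not.and ((Primrec.nat_le.comp (Primrec.const S) u1).and
        (imp_pred (primrec_Mis (Primrec.const q) ub) (primrec_conv uh (Primrec.const q) ub)))
  have hex : ∀ t, ∃ n, P t n := by
    intro t
    obtain ⟨s₀, hs₀⟩ := late_event hpos (t := t)
    have he : eN (fnm (pos t) (Nat.pair e t)) = e ∧ tN (fnm (pos t) (Nat.pair e t)) = t :=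
      wN_eq.1 (wN_fnm _ _)
    by_cases hA : Asg q (pos t / 2)
    · obtain ⟨s₁, hs₁⟩ := own_blocks hpos hq hT hS hA
      refine ⟨Nat.pair (max s₀ s₁) (fnm (pos t) (Nat.pair e t)), ?_⟩
      simp only [P, Nat.unpair_pair]
      refine ⟨(hs₀ _ (le_max_left _ _)).1, he.1, he.2, Or.inl ⟨by rw [pN_fnm]; exact hA, ?_⟩⟩
      rw [pN_fnm]; exact hs₁ _ (le_max_right _ _)
    · obtain ⟨s₁, hs₁⟩ := conv_ev hT (pos t / 2)
      refine ⟨Nat.pair (max (max s₀ s₁) S) (fnm (pos t) (Nat.pair e t)), ?_⟩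
      simp only [P, Nat.unpair_pair]
      refine ⟨(hs₀ _ (le_trans (le_max_left _ _) (le_max_left _ _))).1, he.1, he.2,
        Or.inr ⟨by rw [pN_fnm]; exact hA, le_max_right _ _, fun _ => ?_⟩⟩
      rw [pN_fnm]; exact hs₁ _ (le_trans (le_max_right _ _) (le_max_left _ _))
  have hval : ∀ t, pos t = pN (Nat.find (hex t)).unpair.2 := by
    intro t
    obtain ⟨h1, h2, h3, h4⟩ := Nat.find_spec (hex t)
    set n := Nat.find (hex t)
    have hw : wN n.unpair.2 = Nat.pair e t := wN_eq.2 ⟨h2, h3⟩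
    have hb := tie_block (hpos t) hw h1
    rcases h4 with ⟨h5, h6⟩ | ⟨h5, h6, h7⟩
    · rw [hb] at h5
      obtain ⟨s₁, hs₁⟩ := own_blocks hpos hq hT hS h5
      exact ev_inj (hs₁ s₁ le_rfl) h6
    · have h8 := hSS _ h6 _ h5 h7
      refine (tie_pos (hpos t) hw h1 ?_).symm
      have h9 := h1.2
      unfold alive at h9
      unfold aliveF
      rwa [h8] at h9
  have : pos = fun t => pN (Nat.find (hex t)).unpair.2 := funext hval
  rw [this]
  exact primrec_pN.to_comp.comp (primrec_u2.to_comp.comp (Computable.find hP hex))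

/-- If some partial computable function predicts the position of all tokens on side `j` then
all positions can be computed. -/
theorem core {j : ℕ} {ψ : ℕ →. ℕ} (hψ : Partrec ψ)
    (h : ∀ t, OnS e j (pos t / 2) → pos t ∈ ψ t) : Computable pos := by
  obtain ⟨c, hc⟩ := Code.exists_code.1 (Partrec.nat_iff.1 hψ)
  classical
  set q₀ := Nat.pair e (Nat.pair (Encodable.encode c) j) with hq₀
  have e0 : eQ q₀ = e := by simp [eQ, hq₀]
  have i0 : iQ q₀ = Encodable.encode c := by simp [iQ, hq₀]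
  have j0 : jQ q₀ = j := by simp [jQ, hq₀]
  have hev : ∀ s t n, ev s (iQ q₀) t = some n → n ∈ ψ t := by
    intro s t n hn
    unfold ev at hn
    rw [i0, Denumerable.ofNat_encode] at hn
    have := Code.evaln_sound hn
    rwa [hc] at this
  have hT0 : Tot q₀ := by
    rintro t ⟨s, hs⟩
    rw [e0, j0, seen_iff] at hs
    obtain ⟨σ, _, z, _, h2, h3, h4, h5⟩ := hs
    rw [tie_block (hpos t) (wN_eq.2 ⟨h3, h4⟩) h2] at h5
    have h6 := h t h5
    have h6' : pos t ∈ c.eval t := by rw [hc]; exact h6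
    obtain ⟨k, hk⟩ := Code.evaln_complete.1 h6'
    refine ⟨k, ?_⟩
    unfold ev
    rw [i0, Denumerable.ofNat_encode]
    rw [Option.mem_def] at hk
    rw [hk]; simp
  have hS0 : ¬ SatF q₀ := by
    rintro ⟨s', hs'⟩
    rw [sat_iff] at hs'
    obtain ⟨s, _, z, _, h2, h3, h4, h5, h6⟩ := hs'
    rw [hist_length] at h5 h6
    obtain ⟨n, hn⟩ := Option.ne_none_iff_exists'.1 h5
    have hw : wN z = Nat.pair e (tN z) := wN_eq.2 ⟨h3.trans e0, rfl⟩
    have hb := tie_block (hpos (tN z)) hw h2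
    have h7 : OnS e j (pos (tN z) / 2) := ⟨q₀, hb ▸ h4.1, hb ▸ h4, e0, j0⟩
    have h8 := Part.mem_unique (h _ h7) (hev _ _ _ hn)
    have h9 : pN z = pos (tN z) := by
      refine tie_pos (hpos _) hw h2 ?_
      have h10 : brok (hist s) (pN z / 2) ↔ BrF (pN z / 2) := by
        refine brok_of_frz (s := s) ?_ s le_rfl
        rw [frz_iff]
        exact ⟨s, le_rfl, Or.inl ⟨q₀, h4.1, h4, sat_iff.2 ⟨s, le_rfl, z, by
          rw [hist_length]; have := h2.1; rw [hist_length] at this; exact Dm_lt this,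
          h2, h3, h4, by rw [hist_length]; exact h5, by rw [hist_length]; exact h6⟩⟩⟩
      have h9 := h2.2
      unfold alive at h9
      unfold aliveF
      rwa [h10] at h9
    rw [hn, ← h8, h9] at h6
    exact h6 rfl
  have hex : ∃ q, eQ q = e ∧ Tot q ∧ ¬ SatF q := ⟨q₀, e0, hT0, hS0⟩
  obtain ⟨a1, a2, a3⟩ := Nat.find_spec hex
  refine core_min hpos a1 a2 a3 fun q' hq' he => ?_
  by_contra hcon
  push Not at hcon
  exact Nat.find_min hex hq' ⟨he.trans a1, hcon.2, hcon.1⟩

end Core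


/-! ### Injectivity and the second numbering -/

theorem exists_empty_token : ∃ w, ∀ s x, Dm s w x = false := by
  obtain ⟨c, hc⟩ := Code.exists_code.1 Nat.Partrec.none
  refine ⟨Nat.pair (Nat.pair (Encodable.encode c) 0) 0, fun s x => ?_⟩
  have : W s (Encodable.encode c) (Nat.pair 0 x) = false := by
    rw [← Bool.not_eq_true]
    intro h
    unfold W at h
    rw [Denumerable.ofNat_encode] at h
    obtain ⟨v, hv⟩ := Option.isSome_iff_exists.1 h
    have := Code.evaln_sound hv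
    rw [hc] at this
    exact Part.notMem_none _ this
  unfold Dm
  simp only [Nat.unpair_pair]
  rw [this]; simp

theorem mu_inj {p p' : ℕ} (h : mu p = mu p') : p = p' := by
  obtain ⟨w, hw⟩ := exists_empty_token
  have h1 : fnm p w ∈ mu p := Or.inl ⟨pN_fnm _ _, aliveF_fnm _ _⟩
  have hs : ∀ s, ¬ shown (hist s) (fnm p w) := by
    intro s hs
    have := hs.1
    rw [wN_fnm, hw] at this
    exact Bool.noConfusion this
  rw [h] at h1
  rcases h1 with a | ⟨s₁, _, _, a, _⟩ | ⟨⟨s₁, _, _, a, _⟩, _⟩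
  · rw [← a.1, pN_fnm]
  · exact absurd a (hs s₁)
  · exact absurd a (hs s₁)

/-- the other position in the same block -/
def sw (p : ℕ) : ℕ := if p % 2 = 0 then p + 1 else p - 1

theorem sw_half (p : ℕ) : sw p / 2 = p / 2 := by unfold sw; split_ifs <;> omega
theorem sw_sw (p : ℕ) : sw (sw p) = p := by unfold sw; split_ifs <;> omega

open Classical in
noncomputable def swF (p : ℕ) : ℕ := if BrF (p / 2) then sw p else p

theorem swF_half (p : ℕ) : swF p / 2 = p / 2 := by
  unfold swF; split_ifs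
  · exact sw_half p
  · rfl

theorem swF_swF (p : ℕ) : swF (swF p) = p := by
  by_cases h : BrF (p / 2)
  · have h1 : swF p = sw p := if_pos h
    rw [h1]
    unfold swF
    rw [sw_half, if_pos h, sw_sw]
  · have h1 : swF p = p := if_neg h
    rw [h1, h1]

noncomputable def nu (p : ℕ) : Set ℕ := mu (swF p)

theorem range_nu : Set.range nu = Set.range mu := by
  ext X
  constructor
  · rintro ⟨p, rfl⟩; exact ⟨swF p, rfl⟩
  · rintro ⟨p, rfl⟩; exact ⟨swF p, by unfold nu; rw [swF_swF]⟩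

open Classical in
/-- the second numbering does not reduce to the first -/
theorem nu_not_red {f : ℕ → ℕ} (hf : Computable f) (h : ∀ p, nu p = mu (f p)) : False := by
  obtain ⟨c, hc⟩ := Code.exists_code.1 (Partrec.nat_iff.1 hf.partrec)
  set r := Encodable.encode c with hr
  have hev : ∀ x, ∃ s₀, ∀ s ≥ s₀, ev s r x = some (f x) := by
    intro x
    have h1 : f x ∈ c.eval x := by rw [hc]; exact Part.mem_some _
    obtain ⟨k, hk⟩ := Code.evaln_complete.1 h1
    refine ⟨k, fun s hs => ev_mono hs ?_⟩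
    unfold ev
    rw [hr, Denumerable.ofNat_encode]
    exact hk
  have hpos : ∀ p, swF p = f p := fun p => mu_inj (h p)
  have step1 : ∀ b, rB b = r → ¬ BrF b := by
    rintro b hb ⟨t, ht⟩
    obtain ⟨σ, _, _, _, h4, _⟩ := exists_cand (Nat.zero_le t) (not_brok_zero b) ht
    have h5 := h4.2.2.1
    rw [hist_length, hb] at h5
    obtain ⟨s₀, hs₀⟩ := hev (2 * b)
    have h6 := ev_inj h5 (hs₀ s₀ le_rfl)
    have h7 := hpos (2 * b)
    have h8 : swF (2 * b) = 2 * b + 1 := by
      unfold swF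
      rw [show 2 * b / 2 = b by omega, if_pos ⟨t, ht⟩]
      unfold sw
      rw [if_pos (by omega)]
    omega
  let good : ℕ → Prop := fun q =>
    Tot q ∧ ¬ SatF q ∧ ∀ q' < q, eQ q' = eQ q → ¬ (Tot q' ∧ ¬ SatF q')
  set G := (List.range r).filter (fun q => good q) with hG
  have hmemG : ∀ q, q ∈ G ↔ q < r ∧ good q := by
    intro q; rw [hG]; simp
  have step2 : ∀ q < r, ∃ N₀, ∀ N ≥ N₀, ∀ b ≥ N, ∀ σ, GB b = G →
      ¬ (Mis q b ∧ ¬ sat (hist σ) q ∧ conv (hist σ) q b) := by
    intro q hq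
    by_cases hSq : SatF q
    · obtain ⟨s, hs⟩ := hSq
      refine ⟨s, fun N hN b hb σ _ hcon => ?_⟩
      by_cases hσ : s ≤ σ
      · exact hcon.2.1 (sat_mono hσ hs)
      · have := hcon.2.2.1
        rw [hist_length] at this
        omega
    · by_cases hTq : Tot q
      · refine ⟨0, fun N _ b _ σ hGb hcon => ?_⟩
        obtain ⟨_, h1, h2⟩ := hcon.1
        rw [hGb] at h1
        rw [hmemG] at h1
        have h3 : ¬ good q := fun h' => h1 ⟨hq, h'⟩
        have h4 : ∃ q', q' < q ∧ eQ q' = eQ q ∧ Tot q' ∧ ¬ SatF q' := by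
          by_contra hno
          push Not at hno
          exact h3 ⟨hTq, hSq, fun q' hq' he h' => h'.2 (hno q' hq' he h'.1)⟩
        obtain ⟨a1, a2, a3, a4⟩ := Nat.find_spec h4
        refine h2 _ a1 ?_ a2
        rw [hGb, hmemG]
        refine ⟨a1.trans hq, a3, a4, fun q'' hq'' he h' => ?_⟩
        exact Nat.find_min h4 hq'' ⟨hq''.trans a1, he.trans a2, h'⟩
      · obtain ⟨N, hN⟩ := not_conv hTq
        exact ⟨N, fun M hM b hb σ _ hcon => hN σ b (hM.trans hb) hcon.2.2⟩
  obtain ⟨N, hN⟩ := bdd_all (n := r) (P := fun q N => ∀ b ≥ N, ∀ σ, GB b = G →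
      ¬ (Mis q b ∧ ¬ sat (hist σ) q ∧ conv (hist σ) q b)) step2
  set b := Nat.pair r (Nat.pair (Encodable.encode G) N) with hb
  have hrb : rB b = r := by simp [rB, hb]
  have hGb : GB b = G := by simp [GB, hb]
  have hbN : N ≤ b := (Nat.right_le_pair _ _).trans (Nat.right_le_pair _ _)
  have hfrz : ∀ s, ¬ frz (hist s) b := by
    intro s hs
    rw [frz_iff] at hs
    obtain ⟨σ, _, hσ | hσ⟩ := hs
    · obtain ⟨q, _, hA, hsat⟩ := hσ
      have := hA.2.1
      rw [hGb, hmemG] at this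
      exact this.2.2.1 ⟨σ, hsat⟩
    · obtain ⟨q, hq, hM⟩ := hσ
      rw [hrb] at hq
      exact hN N le_rfl q hq b hbN σ hGb hM
  have henb : ∃ s₀, ∀ s ≥ s₀, enb (hist s) b := by
    have h1 : ∀ q < r, ∃ s₀, ∀ s ≥ s₀, (Asg q b → conv (hist s) q b) := by
      intro q _
      by_cases hA : Asg q b
      · have := hA.2.1
        rw [hGb, hmemG] at this
        obtain ⟨s₀, hs₀⟩ := conv_ev this.2.1 b
        exact ⟨s₀, fun s hs _ => hs₀ s hs⟩
      · exact ⟨0, fun s _ h' => absurd h' hA⟩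
    obtain ⟨s₀, hs₀⟩ := bdd_all h1
    refine ⟨s₀, fun s hs q hq => ?_⟩
    rw [hrb] at hq
    exact hs₀ s hs q hq
  obtain ⟨s₁, hs₁⟩ := henb
  obtain ⟨s₂, hs₂⟩ := hev (2 * b)
  have hf2 : f (2 * b) = 2 * b := by
    rw [← hpos]
    unfold swF
    rw [show 2 * b / 2 = b by omega, if_neg (step1 b hrb)]
  rw [hf2] at hs₂
  have hsb : s₁ + s₂ ≤ Nat.pair b (s₁ + s₂) := Nat.right_le_pair _ _
  have hc : cand (hist (Nat.pair b (s₁ + s₂))) b := by
    refine ⟨hfrz _, hs₁ _ (by omega), ?_, fun x hx hx0 hrx => ?_⟩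
    · rw [hist_length, hrb]; exact hs₂ _ (by omega)
    · refine step1 (x - 1) (hrx.trans hrb) ⟨Nat.pair b (s₁ + s₂), ?_⟩
      unfold brok
      rwa [Nat.sub_add_cancel (Nat.one_le_iff_ne_zero.2 hx0)]
  exact step1 b hrb ⟨_, brok_of_cand (by simp) hc⟩


/-! ### The Ershov hierarchy -/

theorem exists_change {f : ℕ → Bool} {a b : ℕ} (h : a ≤ b) (hf : f a ≠ f b) :
    ∃ s, a ≤ s ∧ s < b ∧ f (s + 1) ≠ f s := by
  induction h with
  | refl => exact absurd rfl hf
  | @step m hm ih =>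
    by_cases h1 : f a = f m
    · exact ⟨m, hm, by omega, fun h2 => hf (by rw [h1, ← h2])⟩
    · obtain ⟨s, h2, h3, h4⟩ := ih h1
      exact ⟨s, h2, by omega, h4⟩

theorem change_le_two {f : ℕ → Bool} (h : ∀ a b c, a ≤ b → b ≤ c → f a = true → f b = false →
    f c = false) : {s | f (s + 1) ≠ f s}.encard ≤ 2 := by
  have hsub : {s | f (s + 1) ≠ f s} ⊆
      {s | f s = false ∧ f (s + 1) = true} ∪ {s | f s = true ∧ f (s + 1) = false} := by
    intro s hs
    simp only [Set.mem_ofPred_eq] at hs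
    cases h1 : f s <;> cases h2 : f (s + 1) <;> simp_all
  refine (Set.encard_mono hsub).trans ((Set.encard_union_le _ _).trans ?_)
  have e1 : {s | f s = false ∧ f (s + 1) = true}.encard ≤ 1 := by
    rw [Set.encard_le_one_iff]
    rintro a b ⟨a1, a2⟩ ⟨b1, b2⟩
    rcases lt_trichotomy a b with hab | hab | hab
    · have := h (a + 1) b (b + 1) (by omega) (by omega) a2 b1
      rw [this] at b2; exact absurd b2 (by simp)
    · exact hab
    · have := h (b + 1) a (a + 1) (by omega) (by omega) b2 a1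
      rw [this] at a2; exact absurd a2 (by simp)
  have e2 : {s | f s = true ∧ f (s + 1) = false}.encard ≤ 1 := by
    rw [Set.encard_le_one_iff]
    rintro a b ⟨a1, a2⟩ ⟨b1, b2⟩
    rcases lt_trichotomy a b with hab | hab | hab
    · have := h a (a + 1) b (by omega) (by omega) a1 a2
      rw [this] at b1; exact absurd b1 (by simp)
    · exact hab
    · have := h b (b + 1) a (by omega) (by omega) b1 b2
      rw [this] at a1; exact absurd a1 (by simp)
  calc _ ≤ (1 : ℕ∞) + 1 := add_le_add e1 e2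
    _ = 2 := by norm_num

theorem no_three {f : ℕ → Bool} (h : {s | f (s + 1) ≠ f s}.encard ≤ 2) (h0 : f 0 = false)
    {a b c : ℕ} (hab : a ≤ b) (hbc : b ≤ c) (ha : f a = true) (hb : f b = false)
    (hc : f c = true) : False := by
  obtain ⟨x, _, x2, x3⟩ := exists_change (f := f) (Nat.zero_le a) (by rw [h0, ha]; simp)
  obtain ⟨y, y1, y2, y3⟩ := exists_change (f := f) hab (by rw [ha, hb]; simp)
  obtain ⟨z, z1, _, z3⟩ := exists_change (f := f) hbc (by rw [hb, hc]; simp)
  have hsub : (({x, y, z} : Finset ℕ) : Set ℕ) ⊆ {s | f (s + 1) ≠ f s} := by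
    intro s hs
    simp only [Finset.coe_insert, Finset.coe_singleton, Set.mem_insert_iff,
      Set.mem_singleton_iff] at hs
    rcases hs with rfl | rfl | rfl
    · exact x3
    · exact y3
    · exact z3
  have hcard : ({x, y, z} : Finset ℕ).card = 3 := by
    rw [Finset.card_eq_three]
    exact ⟨x, y, z, by omega, by omega, by omega, rfl⟩
  have := (Set.encard_mono hsub).trans h
  rw [Set.encard_coe_eq_coe_finsetCard, hcard] at this
  exact absurd this (by decide)

/-- enumeration of the domain of a search -/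
theorem exists_W {p : ℕ → ℕ → Bool} (hp : Computable₂ p) :
    ∃ e, ∀ y, (∃ s, W s e y = true) ↔ ∃ n, p y n = true := by
  have h : Partrec (fun y : ℕ => Nat.rfind fun n => Part.some (p y n)) := by
    refine Partrec.rfind ?_
    exact hp.partrec₂
  obtain ⟨c, hc⟩ := Code.exists_code.1 (Partrec.nat_iff.1 h)
  refine ⟨Encodable.encode c, fun y => ?_⟩
  have h1 : (∃ s, W s (Encodable.encode c) y = true) ↔ (c.eval y).Dom := by
    rw [Part.dom_iff_mem]
    constructor
    · rintro ⟨s, hs⟩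
      unfold W at hs
      rw [Denumerable.ofNat_encode] at hs
      obtain ⟨v, hv⟩ := Option.isSome_iff_exists.1 hs
      exact ⟨v, Code.evaln_sound hv⟩
    · rintro ⟨v, hv⟩
      obtain ⟨s, hs⟩ := Code.evaln_complete.1 hv
      refine ⟨s, ?_⟩
      unfold W
      rw [Denumerable.ofNat_encode]
      exact Option.isSome_iff_exists.2 ⟨v, hs⟩
  rw [h1, hc, Nat.rfind_dom]
  simp

theorem Dl_iff (w x : ℕ) : Dl w x ↔
    (∃ s, W s w.unpair.1.unpair.1 (Nat.pair w.unpair.2 x) = true) ∧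
      ¬ ∃ s, W s w.unpair.1.unpair.2 (Nat.pair w.unpair.2 x) = true := by
  constructor
  · rintro ⟨s₀, h⟩
    refine ⟨⟨s₀, (Dm_true (h s₀ le_rfl)).1⟩, ?_⟩
    rintro ⟨s, hs⟩
    have h1 := (Dm_true (h (max s₀ s) (le_max_left _ _))).2
    rw [W_mono (le_max_right _ _) hs] at h1
    exact Bool.noConfusion h1
  · rintro ⟨⟨s, hs⟩, h⟩
    refine ⟨s, fun s' hs' => ?_⟩
    push Not at h
    have := h s'
    simp only [Bool.not_eq_true] at this
    unfold Dm
    rw [W_mono hs' hs, this]; rfl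

/-- normal form of `2`-c.e. sets -/
theorem nce_two {X : Set ℕ} (h : NCE 2 X) :
    ∃ e, ∀ t x, Dl (Nat.pair e t) x ↔ Nat.pair t x ∈ X := by
  obtain ⟨g, hg, hx⟩ := h
  obtain ⟨e₀, h₀⟩ := exists_W hg
  obtain ⟨e₁, h₁⟩ := exists_W (p := fun y n => g y n.unpair.1 && !g y (n.unpair.1 + n.unpair.2)) (by
    have a : Computable (fun q : ℕ × ℕ => g q.1 q.2.unpair.1) :=
      hg.comp Computable.fst (primrec_u1.comp Primrec.snd).to_comp
    have b : Computable (fun q : ℕ × ℕ => g q.1 (q.2.unpair.1 + q.2.unpair.2)) :=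
      hg.comp Computable.fst (Primrec.nat_add.comp (primrec_u1.comp Primrec.snd)
        (primrec_u2.comp Primrec.snd)).to_comp
    exact Primrec.and.to_comp.comp a (Primrec.not.to_comp.comp b))
  refine ⟨Nat.pair e₀ e₁, fun t x => ?_⟩
  rw [Dl_iff]
  simp only [Nat.unpair_pair]
  rw [h₀, h₁]
  obtain ⟨a0, ⟨s₀, hs₀⟩, a2⟩ := hx (Nat.pair t x)
  have a2' : {s | g (Nat.pair t x) (s + 1) ≠ g (Nat.pair t x) s}.encard ≤ 2 := by
    exact_mod_cast a2
  constructor
  · rintro ⟨⟨n, hn⟩, hno⟩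
    by_contra hX
    refine hno ⟨Nat.pair n s₀, ?_⟩
    simp only [Nat.unpair_pair]
    have : g (Nat.pair t x) (n + s₀) = false := by
      rw [← Bool.not_eq_true]
      exact fun h' => hX ((hs₀ _ (by omega)).1 h')
    rw [hn, this]; rfl
  · intro hX
    refine ⟨⟨s₀, (hs₀ s₀ le_rfl).2 hX⟩, ?_⟩
    rintro ⟨n, hn⟩
    simp only [Bool.and_eq_true, Bool.not_eq_true'] at hn
    exact no_three a2' a0 (Nat.le_add_right _ _) (Nat.le_add_left _ s₀) hn.1 hn.2
      ((hs₀ _ (by omega)).2 hX)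

theorem NCE.comp {n : ℕ} {X : Set ℕ} (h : NCE n X) {f : ℕ → ℕ} (hf : Computable f) :
    NCE n {y | f y ∈ X} := by
  obtain ⟨g, hg, hx⟩ := h
  exact ⟨fun y s => g (f y) s, hg.comp (hf.comp Computable.fst) Computable.snd,
    fun y => hx (f y)⟩

/-! ### The two numberings are computable -/

def KS (s z : ℕ) : Prop :=
  ∃ s₂ < s, ∃ s₁ < s₂, shown (hist s₁) z ∧ Dm s₂ (wN z) z = false ∧ alive (hist s₂) z

def LS (s z : ℕ) : Prop :=
  ∃ s₂ < s, ∃ s₁ < s₂, shown (hist s₁) z ∧ Dm s₂ (wN z) z = false ∧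
    ∃ z' < s₂, wN z' = wN z ∧ pN z' / 2 ≠ pN z / 2 ∧ shown (hist s₂) z'

def memS (s p z : ℕ) : Prop :=
  (pN z = p ∧ alive (hist s) z) ∨ KS (s + 1) z ∨ (LS (s + 1) z ∧ pN z / 2 ≠ p / 2)

open Classical in
noncomputable def sws (s p : ℕ) : ℕ := if brok (hist s) (p / 2) then sw p else p

theorem primrec_sw : Primrec sw := by
  unfold sw
  exact Primrec.ite (Primrec.eq.comp (Primrec.nat_mod.comp Primrec.id (Primrec.const 2))
    (Primrec.const 0)) Primrec.succ Primrec.pred

open Classical in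
theorem primrec_sws {α : Type*} [Primcodable α] {f g : α → ℕ} (hf : Primrec f) (hg : Primrec g) :
    Primrec (fun a => sws (f a) (g a)) := by
  unfold sws
  exact Primrec.ite (primrec_brok (primrec_hist.comp hf) (primrec_half hg))
    (primrec_sw.comp hg) hg

section P2
variable {α : Type*} [Primcodable α]

theorem primrec_KS {f g : α → ℕ} (hf : Primrec f) (hg : Primrec g) :
    PrimrecPred (fun a => KS (f a) (g a)) := by
  unfold KS
  refine ex_lt (R := fun s₂ a => ∃ s₁ < s₂, shown (hist s₁) (g a) ∧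
    Dm s₂ (wN (g a)) (g a) = false ∧ alive (hist s₂) (g a)) ?_ hf
  refine ex_lt (R := fun s₁ (x : ℕ × α) => shown (hist s₁) (g x.2) ∧
    Dm x.1 (wN (g x.2)) (g x.2) = false ∧ alive (hist x.1) (g x.2)) ?_ Primrec.fst
  have g' : Primrec (fun x : ℕ × (ℕ × α) => g x.2.2) := hg.comp (Primrec.snd.comp Primrec.snd)
  have s₂ : Primrec (fun x : ℕ × (ℕ × α) => x.2.1) := Primrec.fst.comp Primrec.snd
  exact (primrec_shown (primrec_hist.comp Primrec.fst) g').and
    ((Primrec.eq.comp (primrec_Dm s₂ (primrec_wN.comp g') g') (Primrec.const false)).and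
      (primrec_alive (primrec_hist.comp s₂) g'))

theorem primrec_LS {f g : α → ℕ} (hf : Primrec f) (hg : Primrec g) :
    PrimrecPred (fun a => LS (f a) (g a)) := by
  unfold LS
  refine ex_lt (R := fun s₂ a => ∃ s₁ < s₂, shown (hist s₁) (g a) ∧
    Dm s₂ (wN (g a)) (g a) = false ∧ ∃ z' < s₂, wN z' = wN (g a) ∧
      pN z' / 2 ≠ pN (g a) / 2 ∧ shown (hist s₂) z') ?_ hf
  refine ex_lt (R := fun s₁ (x : ℕ × α) => shown (hist s₁) (g x.2) ∧
    Dm x.1 (wN (g x.2)) (g x.2) = false ∧ ∃ z' < x.1, wN z' = wN (g x.2) ∧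
      pN z' / 2 ≠ pN (g x.2) / 2 ∧ shown (hist x.1) z') ?_ Primrec.fst
  have g' : Primrec (fun x : ℕ × (ℕ × α) => g x.2.2) := hg.comp (Primrec.snd.comp Primrec.snd)
  have s₂ : Primrec (fun x : ℕ × (ℕ × α) => x.2.1) := Primrec.fst.comp Primrec.snd
  refine (primrec_shown (primrec_hist.comp Primrec.fst) g').and
    ((Primrec.eq.comp (primrec_Dm s₂ (primrec_wN.comp g') g') (Primrec.const false)).and ?_)
  refine ex_lt (R := fun z' (x : ℕ × (ℕ × α)) => wN z' = wN (g x.2.2) ∧
      pN z' / 2 ≠ pN (g x.2.2) / 2 ∧ shown (hist x.2.1) z') ?_ s₂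
  exact (Primrec.eq.comp (primrec_wN.comp Primrec.fst) (primrec_wN.comp (g'.comp Primrec.snd))).and
    ((Primrec.eq.comp (primrec_half (primrec_pN.comp Primrec.fst))
      (primrec_half (primrec_pN.comp (g'.comp Primrec.snd)))).not.and
      (primrec_shown (primrec_hist.comp (s₂.comp Primrec.snd)) Primrec.fst))

theorem primrec_memS {f g h : α → ℕ} (hf : Primrec f) (hg : Primrec g) (hh : Primrec h) :
    PrimrecPred (fun a => memS (f a) (g a) (h a)) := by
  unfold memS
  refine ((Primrec.eq.comp (primrec_pN.comp hh) hg).and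
    (primrec_alive (primrec_hist.comp hf) hh)).or
    ((primrec_KS (Primrec.succ.comp hf) hh).or ((primrec_LS (Primrec.succ.comp hf) hh).and ?_))
  exact (Primrec.eq.comp (primrec_half (primrec_pN.comp hh)) (primrec_half hg)).not

end P2

theorem KS_mono {s s' z : ℕ} (h : s ≤ s') (hs : KS s z) : KS s' z := by
  obtain ⟨s₂, h1, h2⟩ := hs
  exact ⟨s₂, by omega, h2⟩

theorem LS_mono {s s' z : ℕ} (h : s ≤ s') (hs : LS s z) : LS s' z := by
  obtain ⟨s₂, h1, h2⟩ := hs
  exact ⟨s₂, by omega, h2⟩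

theorem KS_final (z : ℕ) : ∃ s₀, ∀ s ≥ s₀, (KS s z ↔ KF z) := by
  by_cases h : KF z
  · obtain ⟨s₁, s₂, h1, h2, h3, h4⟩ := id h
    exact ⟨s₂ + 1, fun s hs => ⟨fun _ => h, fun _ => ⟨s₂, by omega, s₁, h1, h2, h3, h4⟩⟩⟩
  · refine ⟨0, fun s _ => ⟨?_, fun h' => absurd h' h⟩⟩
    rintro ⟨s₂, _, s₁, h1, h2, h3, h4⟩
    exact ⟨s₁, s₂, h1, h2, h3, h4⟩

theorem LS_final (z : ℕ) : ∃ s₀, ∀ s ≥ s₀, (LS s z ↔ LF z) := by
  by_cases h : LF z
  · obtain ⟨s₁, s₂, h1, h2, h3, z', h4, h5, h6⟩ := id h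
    refine ⟨s₂ + 1, fun s hs => ⟨fun _ => h, fun _ => ⟨s₂, by omega, s₁, h1, h2, h3, z', ?_,
      h4, h5, h6⟩⟩⟩
    have := h6.1
    rw [hist_length] at this
    exact Dm_lt this
  · refine ⟨0, fun s _ => ⟨?_, fun h' => absurd h' h⟩⟩
    rintro ⟨s₂, _, s₁, h1, h2, h3, z', _, h4⟩
    exact ⟨s₁, s₂, h1, h2, h3, z', h4⟩

/-- common treatment of the two numberings; `P s` is the position of the index at stage `s` -/
theorem nce_aux {P : ℕ → ℕ → ℕ} (hP : Primrec₂ P) (Q : ℕ → ℕ)
    (h1 : ∀ s s' p, (brok (hist s) (p / 2) ↔ brok (hist s') (p / 2)) → P s p = P s' p)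
    (h2 : ∀ s p, P s p / 2 = p / 2)
    (h3 : ∀ p, ∃ s₀, ∀ s ≥ s₀, P s p = Q p) :
    NCE 2 {z | z.unpair.2 ∈ mu (Q z.unpair.1)} := by
  classical
  refine ⟨fun y s => decide (s ≠ 0 ∧ memS (s - 1) (P (s - 1) y.unpair.1) y.unpair.2), ?_, ?_⟩
  · have h : PrimrecPred (fun a : ℕ × ℕ =>
        a.2 ≠ 0 ∧ memS (a.2 - 1) (P (a.2 - 1) a.1.unpair.1) a.1.unpair.2) := by
      refine (Primrec.eq.comp Primrec.snd (Primrec.const 0)).not.and ?_
      have a1 : Primrec (fun a : ℕ × ℕ => a.2 - 1) := Primrec.pred.comp Primrec.snd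
      exact primrec_memS a1 (hP.comp a1 (primrec_u1.comp Primrec.fst))
        (primrec_u2.comp Primrec.fst)
    exact h.decide.to_comp
  · intro y
    set p := y.unpair.1
    set z := y.unpair.2
    refine ⟨by simp, ?_, ?_⟩
    · obtain ⟨a, ha⟩ := alive_final z
      obtain ⟨b, hb⟩ := KS_final z
      obtain ⟨c, hc⟩ := LS_final z
      obtain ⟨d, hd⟩ := h3 p
      refine ⟨a + b + c + d + 1, fun s hs => ?_⟩
      simp only [decide_eq_true_eq, Set.mem_ofPred_eq]
      have e : memS (s - 1) (P (s - 1) p) z ↔ z ∈ mu (Q p) := by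
        unfold memS mu
        rw [ha _ (by omega), hb _ (by omega), hc _ (by omega), hd _ (by omega)]
        rfl
      rw [e]
      exact ⟨fun h' => h'.2, fun h' => ⟨by omega, h'⟩⟩
    · refine (change_le_two (f := fun s => decide (s ≠ 0 ∧ memS (s - 1) (P (s - 1) p) z))
        ?_).trans (le_of_eq rfl)
      intro s₁ s₂ s₃ h12 h23 ha hb
      simp only [decide_eq_true_eq, decide_eq_false_iff_not] at ha hb ⊢
      obtain ⟨ha0, ha⟩ := ha
      rintro ⟨_, hc⟩
      have hb' : ¬ memS (s₂ - 1) (P (s₂ - 1) p) z := fun h' => hb ⟨by omega, h'⟩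
      unfold memS at ha hb' hc
      push Not at hb'
      obtain ⟨b1, b2, b3⟩ := hb'
      have hF : pN z = P (s₁ - 1) p ∧ alive (hist (s₁ - 1)) z := by
        rcases ha with ha | ha | ha
        · exact ha
        · exact absurd (KS_mono (by omega) ha) b2
        · have := b3 (LS_mono (by omega) ha.1)
          rw [h2] at this
          exact absurd this (by have := ha.2; rwa [h2] at this)
      have hbl : pN z / 2 = p / 2 := by rw [hF.1, h2]
      have hal := hF.2
      unfold alive at hal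
      -- the block changed between the two stages
      have hch : ¬ brok (hist (s₁ - 1)) (p / 2) ∧ brok (hist (s₂ - 1)) (p / 2) := by
        by_contra hno
        have hsame : brok (hist (s₁ - 1)) (p / 2) ↔ brok (hist (s₂ - 1)) (p / 2) := by
          constructor
          · exact brok_mono (by omega)
          · intro h'
            by_contra h''
            exact hno ⟨h'', h'⟩
        refine b1 (by rw [hF.1]; exact h1 _ _ _ hsame) ?_
        unfold alive
        rw [hbl] at hal ⊢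
        rwa [hsame] at hal
      rw [hbl] at hal
      have hc0 : cN z = 0 := by
        rcases hal with h' | h'
        · exact h'.1
        · exact absurd h'.2 hch.1
      rcases hc with hc | hc | hc
      · have := hc.2
        unfold alive at this
        rw [hbl] at this
        rcases this with h' | h'
        · exact h'.2 (brok_mono (by omega) hch.2)
        · omega
      · obtain ⟨t₂, _, t₁, t3, t4, t5, t6⟩ := hc
        refine b2 ⟨t₂, ?_, t₁, t3, t4, t5, t6⟩
        by_contra hno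
        unfold alive at t6
        rw [hbl] at t6
        rcases t6 with h' | h'
        · exact h'.2 (brok_mono (by omega) hch.2)
        · omega
      · exact hc.2 (by rw [h2, hbl])

theorem mu_nce : NCE 2 {z | z.unpair.2 ∈ mu z.unpair.1} :=
  nce_aux (P := fun _ p => p) Primrec₂.right id (fun _ _ _ _ => rfl) (fun _ _ => rfl)
    (fun _ => ⟨0, fun _ _ => rfl⟩)

theorem nu_nce : NCE 2 {z | z.unpair.2 ∈ nu z.unpair.1} := by
  classical
  refine nce_aux (P := sws) (primrec_sws Primrec.fst Primrec.snd) swF ?_ ?_ ?_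
  · intro s s' p h
    unfold sws
    by_cases hb : brok (hist s) (p / 2)
    · rw [if_pos hb, if_pos (h.1 hb)]
    · rw [if_neg hb, if_neg (fun h' => hb (h.2 h'))]
  · intro s p
    unfold sws
    split_ifs
    · exact sw_half p
    · rfl
  · intro p
    obtain ⟨s₀, hs₀⟩ := brok_final (p / 2)
    refine ⟨s₀, fun s hs => ?_⟩
    unfold sws swF
    by_cases hb : BrF (p / 2)
    · rw [if_pos hb, if_pos ((hs₀ s hs).2 hb)]
    · rw [if_neg hb, if_neg (fun h' => hb ((hs₀ s hs).1 h'))]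

/-! ### The main theorem -/

/-- There is a family of `2`-c.e. sets whose Rogers semilattice has a non-greatest element
without minimal cover. -/
theorem result : ∃ (A : Set (Set ℕ)) (α : ℕ → Set ℕ),
    CompNum 2 A α ∧ NonGreatest 2 A α ∧ ¬ ∃ β, MinimalCover 2 A α β := by
  refine ⟨Set.range mu, mu, ⟨rfl, mu_nce⟩, ⟨nu, ⟨range_nu, nu_nce⟩, ?_⟩, ?_⟩
  · rintro ⟨f, hf, h⟩
    exact nu_not_red hf h
  rintro ⟨β, hβ, ⟨⟨g, hg, hgβ⟩, hnot⟩, hno⟩
  obtain ⟨e, he⟩ := nce_two hβ.nce
  have hmem : ∀ t, ∃ p, β t = mu p := by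
    intro t
    have : β t ∈ Set.range mu := by rw [← hβ.range_eq]; exact ⟨t, rfl⟩
    obtain ⟨p, hp⟩ := this
    exact ⟨p, hp.symm⟩
  choose pos hposβ using hmem
  have hpos : ∀ t x, Dl (Nat.pair e t) x ↔ x ∈ mu (pos t) := by
    intro t x
    rw [he, ← hposβ]
    simp
  have hnc : ¬ Computable pos := fun h => hnot ⟨pos, h, hposβ⟩
  classical
  -- the intermediate numbering
  let h' : ℕ → ℕ := fun x => if x % 2 = 0 then g (x / 2) else
    if seen (hist (x / 2).unpair.2) e (x / 2).unpair.1 0 then (x / 2).unpair.1 else g 0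
  have hh' : Computable h' := by
    have c1 : ComputablePred (fun x : ℕ => x % 2 = 0) := PrimrecPred.computablePred
      (Primrec.eq.comp (Primrec.nat_mod.comp Primrec.id (Primrec.const 2)) (Primrec.const 0))
    have hf : Primrec (fun x : ℕ => x / 2) := primrec_half Primrec.id
    have c2 : ComputablePred (fun x : ℕ => seen (hist (x / 2).unpair.2) e (x / 2).unpair.1 0) :=
      PrimrecPred.computablePred (primrec_seen (primrec_hist.comp (primrec_u2.comp hf))
        (Primrec.const e) (primrec_u1.comp hf) (Primrec.const 0))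
    exact ComputablePred.ite (hg.comp hf.to_comp)
      (ComputablePred.ite (primrec_u1.comp hf).to_comp (Computable.const (g 0)) c2) c1
  have heven : ∀ n, h' (2 * n) = g n := by
    intro n
    simp only [h']
    rw [if_pos (by omega), show 2 * n / 2 = n by omega]
  have hodd : ∀ n, h' (2 * n + 1) =
      if seen (hist n.unpair.2) e n.unpair.1 0 then n.unpair.1 else g 0 := by
    intro n
    simp only [h']
    rw [if_neg (by omega), show (2 * n + 1) / 2 = n by omega]
  have hseenpos : ∀ s t j, seen (hist s) e t j → OnS e j (pos t / 2) := by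
    intro s t j hs
    rw [seen_iff] at hs
    obtain ⟨σ, _, z, _, h2, h3, h4, h5⟩ := hs
    rwa [tie_block (hpos t) (wN_eq.2 ⟨h3, h4⟩) h2] at h5
  have hpos_inj : ∀ t p, β t = mu p → p = pos t := fun t p hp => mu_inj (by rw [← hp, hposβ])
  refine hno ⟨fun x => β (h' x), ⟨?_, ?_⟩, ⟨⟨fun n => 2 * n, ?_, fun n => ?_⟩, ?_⟩,
    ⟨h', hh', fun _ => rfl⟩, ?_⟩
  · rw [← hβ.range_eq]
    ext X
    constructor
    · rintro ⟨x, rfl⟩; exact ⟨_, rfl⟩
    · intro hX
      rw [hβ.range_eq] at hX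
      obtain ⟨p, rfl⟩ := hX
      exact ⟨2 * p, by simp only [heven, ← hgβ]⟩
  · have := hβ.nce.comp (f := fun y => Nat.pair (h' y.unpair.1) y.unpair.2)
      (Primrec₂.natPair.to_comp.comp (hh'.comp primrec_u1.to_comp) primrec_u2.to_comp)
    simpa using this
  · exact (Primrec.nat_mul.comp (Primrec.const 2) Primrec.id).to_comp
  · simp only [heven, ← hgβ]
  · rintro ⟨φ, hφ, hφ'⟩
    refine hnc ?_
    have hψ : Partrec (fun t : ℕ =>
        (Nat.rfind fun s => Part.some (decide (seen (hist s) e t 0))).map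
          fun s => φ (2 * Nat.pair t s + 1)) := by
      refine Partrec.map (Partrec.rfind ?_) ?_
      · have : PrimrecPred (fun p : ℕ × ℕ => seen (hist p.2) e p.1 0) :=
          primrec_seen (primrec_hist.comp Primrec.snd) (Primrec.const e) Primrec.fst
            (Primrec.const 0)
        exact this.decide.to_comp.partrec
      · exact hφ.comp (Primrec.succ.comp (Primrec.nat_mul.comp (Primrec.const 2)
          (Primrec₂.natPair.comp Primrec.fst Primrec.snd))).to_comp
    refine core hpos (j := 0) hψ fun t ht => ?_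
    -- the token is seen
    have hex : ∃ s, seen (hist s) e t 0 := by
      obtain ⟨s₀, hs₀⟩ := late_event hpos (t := t)
      have he' : eN (fnm (pos t) (Nat.pair e t)) = e ∧ tN (fnm (pos t) (Nat.pair e t)) = t :=
        wN_eq.1 (wN_fnm _ _)
      refine ⟨s₀, seen_iff.2 ⟨s₀, le_rfl, fnm (pos t) (Nat.pair e t), ?_, (hs₀ s₀ le_rfl).1,
        he'.1, he'.2, ?_⟩⟩
      · rw [hist_length]; exact (hs₀ s₀ le_rfl).2
      · rw [pN_fnm]; exact ht
    rw [Part.mem_map_iff]
    refine ⟨Nat.find hex, ?_, ?_⟩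
    · rw [Nat.mem_rfind]
      refine ⟨?_, fun {m} hm => ?_⟩
      · simpa using Nat.find_spec hex
      · simpa using Nat.find_min hex hm
    · have h1 := hφ' (2 * Nat.pair t (Nat.find hex) + 1)
      simp only [hodd, Nat.unpair_pair] at h1
      rw [if_pos (Nat.find_spec hex)] at h1
      exact hpos_inj t _ h1
  · rintro ⟨φ, hφ, hφ'⟩
    refine hnc ?_
    have hψ : Computable (fun t : ℕ => if φ t % 2 = 0 then φ t / 2 else 0) := by
      have c1 : ComputablePred (fun x : ℕ => φ x % 2 = 0) := by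
        refine Computable.computablePred ?_
        exact (Primrec.eq (α := ℕ)).decide.to_comp.comp
          ((Primrec.nat_mod.comp Primrec.id (Primrec.const 2)).to_comp.comp hφ)
          (Computable.const 0)
      exact ComputablePred.ite ((primrec_half Primrec.id).to_comp.comp hφ)
        (Computable.const 0) c1
    refine core hpos (j := 1) hψ.partrec fun t ht => ?_
    rw [PFun.coe_val, Part.mem_some_iff]
    have h1 : β t = β (h' (φ t)) := hφ' t
    rcases Nat.even_or_odd' (φ t) with ⟨n, hn | hn⟩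
    · rw [hn, heven, ← hgβ] at h1
      rw [if_pos (by omega), hn, show 2 * n / 2 = n by omega]
      exact (hpos_inj t _ h1).symm
    · rw [if_neg (by omega)]
      rw [hn, hodd] at h1
      by_cases hs : seen (hist n.unpair.2) e n.unpair.1 0
      · exfalso
        rw [if_pos hs] at h1
        have h2 := hseenpos _ _ _ hs
        have h3 : pos t = pos n.unpair.1 := mu_inj (by rw [← hposβ, ← hposβ, h1])
        rw [← h3] at h2
        obtain ⟨q, _, a1, a2, a3⟩ := h2
        obtain ⟨q', _, b1, b2, b3⟩ := ht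
        have := Asg_unique a1 b1 (a2.trans b2.symm)
        rw [this, b3] at a3
        exact absurd a3 (by decide)
      · rw [if_neg hs, ← hgβ] at h1
        exact (hpos_inj t _ h1).symm

end Pool.Agent.Results.MP_4b6b3a_lc.NoMinimalCover
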